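import Pool.Agent.H923R2.FZ.Stubs2

/-! A free Haar unitary in a reduced free product with infinitely many copies of `C([0,1])`. -/

set_option autoImplicit false

open scoped ComplexConjugate

noncomputable section

namespace Pool.Agent.H923R2.FZ.T_HUW

open Pool.Agent.H923R2.FP Pool.Agent.H923R2.FZ

/-- reindexing and monotonicity of freeness -/
theorem free_mono {A : Type} [CStarAlgebra A] {τ : A →ₗ[ℂ] ℂ} {K K' : Type}
    {S : K → StarSubalgebra ℂ A} {S' : K' → StarSubalgebra ℂ A} (h : FreeFam τ S)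
    (g : K' → K) (hg : Function.Injective g) (hS : ∀ k, S' k ≤ S (g k)) : FreeFam τ S' := by
  intro w hw h1 h2
  have h3 := h (w.map fun z => (g z.1, z.2)) (by simpa using hw) (by
    intro z hz
    obtain ⟨y, hy, rfl⟩ := List.mem_map.1 hz
    exact ⟨hS _ (h1 y hy).1, (h1 y hy).2⟩) (by
    rw [List.isChain_map]
    exact h2.imp fun a b hab hgab => hab (hg hgab))
  rw [List.map_map] at h3
  exact h3

section

variable {J : Type} {D : J → Type} [∀ j, CStarAlgebra (D j)] {B : Type} [CStarAlgebra B]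

/-- the algebra generated by the `e j` and by the first `n` of the `f k` -/
def W (e : ∀ j, D j →⋆ₐ[ℂ] B) (f : ℕ → (C(unitInterval, ℂ) →⋆ₐ[ℂ] B)) (n : ℕ) :
    StarSubalgebra ℂ B :=
  StarAlgebra.adjoin ℂ ((⋃ j, Set.range (e j)) ∪ ⋃ k, ⋃ (_ : k < n), Set.range (f k))

variable {e : ∀ j, D j →⋆ₐ[ℂ] B} {f : ℕ → (C(unitInterval, ℂ) →⋆ₐ[ℂ] B)}

theorem W_mono {m n : ℕ} (h : m ≤ n) : W e f m ≤ W e f n := by
  refine StarAlgebra.adjoin_mono ?_
  refine Set.union_subset_union_right _ ?_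
  refine Set.iUnion_subset fun k => Set.iUnion_subset fun hk => ?_
  exact Set.subset_iUnion_of_subset k (Set.subset_iUnion_of_subset (hk.trans_le h) subset_rfl)

theorem mem_W {x : B} (hx : x ∈ StarAlgebra.adjoin ℂ ((⋃ j, Set.range (e j)) ∪
    ⋃ n, Set.range (f n))) : ∃ n, x ∈ W e f n := by
  induction hx using StarAlgebra.adjoin_induction with
  | mem x hx =>
    rcases hx with hx | hx
    · exact ⟨0, StarAlgebra.subset_adjoin _ _ (Or.inl hx)⟩
    · obtain ⟨n, hn⟩ := Set.mem_iUnion.1 hx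
      refine ⟨n + 1, StarAlgebra.subset_adjoin _ _ (Or.inr ?_)⟩
      exact Set.mem_iUnion.2 ⟨n, Set.mem_iUnion.2 ⟨n.lt_succ_self, hn⟩⟩
  | algebraMap r => exact ⟨0, algebraMap_mem _ r⟩
  | add x y _ _ hx hy =>
    obtain ⟨m, hm⟩ := hx
    obtain ⟨n, hn⟩ := hy
    exact ⟨max m n, add_mem (W_mono (le_max_left _ _) hm) (W_mono (le_max_right _ _) hn)⟩
  | mul x y _ _ hx hy =>
    obtain ⟨m, hm⟩ := hx
    obtain ⟨n, hn⟩ := hy
    exact ⟨max m n, mul_mem (W_mono (le_max_left _ _) hm) (W_mono (le_max_right _ _) hn)⟩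
  | star x _ hx =>
    obtain ⟨m, hm⟩ := hx
    exact ⟨m, star_mem hm⟩

end

/-- the image of a unitary, as a homomorphism -/
def umh {A B : Type} [CStarAlgebra A] [Ring B] [StarRing B] [Algebra ℂ B] (π : B →⋆ₐ[ℂ] A) :
    unitary B →* unitary A :=
  MonoidHom.mk' (um π) fun a b => Subtype.ext (by simp [um])

theorem um_zpow {A B : Type} [CStarAlgebra A] [Ring B] [StarRing B] [Algebra ℂ B]
    (π : B →⋆ₐ[ℂ] A) (u : unitary B) (n : ℤ) :
    (((um π u) ^ n : unitary A) : A) = π ((u ^ n : unitary B) : B) := by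
  have h := map_zpow (umh π) u n
  have h1 : umh π (u ^ n) = um π (u ^ n) := rfl
  have h2 : umh π u = um π u := rfl
  rw [h1, h2] at h
  rw [← h]
  rfl

theorem t_HUW (hGRP2 : S_GRP2) (hCLO : S_CLO) (hPHI : FP.S_PHI) (hGADC : FP.S_GADC) : S_HUW := by
  intro J D _ t B _ τ e f h F ε hε
  -- a Haar unitary of `C([0,1])`
  obtain ⟨φ, hφ1, -, hφ2⟩ := hPHI
  obtain ⟨z, -, -, -, hz, -, -⟩ := hGADC φ hφ1 hφ2 0
  -- approximation
  have happ : ∀ x : B, ∃ n : ℕ, ∃ y ∈ W e f n, ‖x - y‖ < ε := by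
    intro x
    have hx : x ∈ (StarAlgebra.adjoin ℂ ((⋃ j, Set.range (e j)) ∪
        ⋃ n, Set.range (f n))).topologicalClosure := by
      rw [h.gen]; trivial
    have hx' : x ∈ closure ((StarAlgebra.adjoin ℂ ((⋃ j, Set.range (e j)) ∪
        ⋃ n, Set.range (f n)) : StarSubalgebra ℂ B) : Set B) := hx
    obtain ⟨y, hy, hxy⟩ := Metric.mem_closure_iff.1 hx' ε hε
    obtain ⟨n, hn⟩ := mem_W hy
    exact ⟨n, y, hn, by rwa [dist_eq_norm] at hxy⟩
  choose n hn using happ
  set N : ℕ := F.sup n with hN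
  have hle : ∀ x ∈ F, n x ≤ N := fun x hx => Finset.le_sup (f := n) hx
  -- freeness
  let Sf : J ⊕ ℕ → StarSubalgebra ℂ B :=
    fun o => o.elim (fun j => (e j).range) fun n => (f n).range
  let P : Set (J ⊕ ℕ) := {o | o ≠ Sum.inr N}
  have hP : (Sum.inr N : J ⊕ ℕ) ∉ P := fun hh => hh rfl
  have h1 := hCLO B τ h.fts _ _ (hGRP2 B τ h.fts (J ⊕ ℕ) Sf h.free P)
  refine ⟨(W e f N).topologicalClosure, um (f N) z, (W e f N).isClosed_topologicalClosure,
    ?_, ?_, ?_⟩
  · intro k hk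
    rw [um_zpow, h.trf]
    exact hz k hk
  · refine free_mono h1 (fun b : Bool => if b then none else some ⟨Sum.inr N, hP⟩) ?_ ?_
    · intro a b hab
      cases a <;> cases b <;> simp_all
    · intro b
      cases b with
      | true =>
        show (W e f N).topologicalClosure ≤ (⨆ k : {k // k ∈ P}, Sf k.1).topologicalClosure
        refine StarSubalgebra.topologicalClosure_mono ?_
        refine StarAlgebra.adjoin_le ?_
        rintro x (hx | hx)
        · obtain ⟨j, hj⟩ := Set.mem_iUnion.1 hx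
          have hjP : (Sum.inl j : J ⊕ ℕ) ∈ P := by
            show (Sum.inl j : J ⊕ ℕ) ≠ Sum.inr N
            simp
          have hle : Sf (Sum.inl j) ≤ ⨆ k : {k // k ∈ P}, Sf k.1 :=
            le_iSup (fun k : {k // k ∈ P} => Sf k.1) ⟨Sum.inl j, hjP⟩
          refine hle ?_
          show x ∈ (e j).range
          obtain ⟨y, rfl⟩ := hj
          exact ⟨y, rfl⟩
        · obtain ⟨k, hk⟩ := Set.mem_iUnion.1 hx
          obtain ⟨hkN, hk⟩ := Set.mem_iUnion.1 hk
          have hkP : (Sum.inr k : J ⊕ ℕ) ∈ P := by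
            show (Sum.inr k : J ⊕ ℕ) ≠ Sum.inr N
            intro hh
            rw [Sum.inr.injEq] at hh
            omega
          have hle : Sf (Sum.inr k) ≤ ⨆ k : {k // k ∈ P}, Sf k.1 :=
            le_iSup (fun k : {k // k ∈ P} => Sf k.1) ⟨Sum.inr k, hkP⟩
          refine hle ?_
          show x ∈ (f k).range
          obtain ⟨y, rfl⟩ := hk
          exact ⟨y, rfl⟩
      | false =>
        show StarAlgebra.adjoin ℂ {((um (f N) z : unitary B) : B)} ≤
          ((f N).range).topologicalClosure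
        refine le_trans (StarAlgebra.adjoin_le ?_) (StarSubalgebra.le_topologicalClosure _)
        rintro x hx
        rw [Set.mem_singleton_iff] at hx
        subst hx
        exact ⟨(z : C(unitInterval, ℂ)), rfl⟩
  · intro x hx
    obtain ⟨y, hy, hxy⟩ := hn x
    exact ⟨y, StarSubalgebra.le_topologicalClosure _ (W_mono (hle x hx) hy), hxy⟩

end Pool.Agent.H923R2.FZ.T_HUW
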