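import Mathlib
import Pool.Agent.H925R3.DC.Stubs

/-! REPE: primitive integral coordinates -/

set_option autoImplicit false

namespace Pool.Agent.H940D

open Pool.Agent.H925R3.DC

theorem den_rel (a b : ℤ) (x y : ℚ) (h : y ^ 2 = x ^ 3 + a * x + b) : y.den ^ 2 = x.den ^ 3 := by
  have hd : (x.den : ℚ) ≠ 0 := by exact_mod_cast x.den_ne_zero
  set N : ℤ := x.num ^ 3 + a * x.num * (x.den : ℤ) ^ 2 + b * (x.den : ℤ) ^ 3 with hN
  have h1 : y ^ 2 = (N : ℚ) / (((x.den : ℤ) ^ 3 : ℤ) : ℚ) := by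
    rw [h, eq_div_iff (by push_cast; positivity)]
    have hx : x * x.den = x.num := Rat.mul_den_eq_num x
    push_cast [hN]
    rw [← hx]
    ring
  have hco : IsCoprime (x.num) (x.den : ℤ) := by
    rw [Int.isCoprime_iff_nat_coprime]
    simpa using x.reduced
  have hcN : IsCoprime N ((x.den : ℤ) ^ 3) := by
    apply IsCoprime.pow_right
    have h2 : N = x.num ^ 3 + (x.den : ℤ) * (a * x.num * (x.den : ℤ) + b * (x.den : ℤ) ^ 2) := by
      rw [hN]; ring
    rw [h2]
    exact (hco.pow_left).add_mul_left_left _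
  have hpos : (0 : ℤ) < (x.den : ℤ) ^ 3 := by
    have := x.den_pos
    positivity
  have h3 : ((y ^ 2).den : ℤ) = (x.den : ℤ) ^ 3 := by
    rw [h1]
    exact Rat.den_div_eq_of_coprime hpos (Int.isCoprime_iff_nat_coprime.mp hcN)
  rw [Rat.den_pow] at h3
  exact_mod_cast h3

theorem repe : REPE := by
  intro a b P
  rcases P with _ | ⟨x, y, h⟩
  · exact ⟨1, 1, 0, isCoprime_one_left, isCoprime_one_left, Or.inl ⟨rfl, rfl, rfl, rfl⟩⟩
  · have heq : y ^ 2 = x ^ 3 + (a : ℚ) * x + b := by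
      have h1 := (WeierstrassCurve.Affine.equation_iff _ _).mp h.1
      simpa [crv] using h1
    have hd := den_rel a b x y heq
    have hdvd : x.den ∣ y.den := by
      rw [← Nat.pow_dvd_pow_iff (n := 2) (by norm_num), hd]
      exact pow_dvd_pow _ (by norm_num)
    obtain ⟨Z, hZ⟩ := hdvd
    have hx0 : 0 < x.den := x.den_pos
    have hdZ : x.den = Z ^ 2 := by
      rw [hZ, mul_pow] at hd
      have h2 : x.den ^ 2 * Z ^ 2 = x.den ^ 2 * x.den := by rw [hd]; ring
      exact (Nat.eq_of_mul_eq_mul_left (by positivity) h2).symm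
    have hyZ : y.den = Z ^ 3 := by rw [hZ, hdZ]; ring
    have hZ0 : Z ≠ 0 := by
      rintro rfl
      simp at hdZ
    have hcx : IsCoprime x.num (Z : ℤ) := by
      have h1 : IsCoprime (x.num) (x.den : ℤ) := by
        rw [Int.isCoprime_iff_nat_coprime]
        simpa using x.reduced
      rw [hdZ] at h1
      push_cast at h1
      exact (IsCoprime.pow_right_iff (by norm_num)).mp h1
    have hcy : IsCoprime y.num (Z : ℤ) := by
      have h1 : IsCoprime (y.num) (y.den : ℤ) := by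
        rw [Int.isCoprime_iff_nat_coprime]
        simpa using y.reduced
      rw [hyZ] at h1
      push_cast at h1
      exact (IsCoprime.pow_right_iff (by norm_num)).mp h1
    refine ⟨x.num, y.num, Z, hcx, hcy, Or.inr ⟨by exact_mod_cast hZ0, ?_⟩⟩
    have hx : (x.num : ℚ) / (((Z : ℤ) : ℚ)) ^ 2 = x := by
      have : (((Z : ℤ) : ℚ)) ^ 2 = x.den := by rw [hdZ]; push_cast; rfl
      rw [this, Rat.num_div_den]
    have hy : (y.num : ℚ) / (((Z : ℤ) : ℚ)) ^ 3 = y := by
      have : (((Z : ℤ) : ℚ)) ^ 3 = y.den := by rw [hyZ]; push_cast; rfl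
      rw [this, Rat.num_div_den]
    rw [hx, hy]
    exact ⟨h, rfl⟩

end Pool.Agent.H940D
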