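import Mathlib
import Pool.Agent.H925R3.DC.Stubs

/-! REPM: points with the same reduction have proportional monomials -/

set_option autoImplicit false

namespace Pool.Agent.H940D

open Pool.Agent.H925R3.DC

theorem dvd_iff (p : ℕ) [Fact p.Prime] (A : ℤ) : (p : ℤ) ∣ A ↔ (A : ZMod p) = 0 :=
  (ZMod.intCast_zmod_eq_zero_iff_dvd A p).symm

/-- the equation at the primitive coordinates -/
theorem rep_eq {a b : ℤ} {P : (crv ℚ (a : ℚ) (b : ℚ)).Point} {X Y Z : ℤ} (h : Rep P X Y Z) :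
    Y ^ 2 = X ^ 3 + a * X * Z ^ 4 + b * Z ^ 6 := by
  obtain ⟨-, -, ⟨-, rfl, rfl, rfl⟩ | ⟨hZ, hns, -⟩⟩ := h
  · ring
  · have hZ' : (Z : ℚ) ≠ 0 := by exact_mod_cast hZ
    have h1 := (WeierstrassCurve.Affine.equation_iff _ _).mp hns.1
    simp only [crv, zero_mul, add_zero] at h1
    have h2 : ((Y : ℚ)) ^ 2 = X ^ 3 + a * X * Z ^ 4 + b * Z ^ 6 := by
      have h3 : ((Y : ℚ) / Z ^ 3) ^ 2 * Z ^ 6 = (((X : ℚ) / Z ^ 2) ^ 3 + a * (X / Z ^ 2) + b) * Z ^ 6 := by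
        rw [h1]
      have e1 : ((Y : ℚ) / Z ^ 3) ^ 2 * Z ^ 6 = Y ^ 2 := by field_simp
      have e2 : (((X : ℚ) / Z ^ 2) ^ 3 + a * (X / Z ^ 2) + b) * Z ^ 6 =
          X ^ 3 + a * X * Z ^ 4 + b * Z ^ 6 := by
        field_simp
      rw [e1, e2] at h3
      exact h3
    exact_mod_cast h2

/-- the reduction in terms of the primitive coordinates -/
theorem rep_red (p : ℕ) [Fact p.Prime] (a b : ℤ)
    (red : (crv ℚ (a : ℚ) (b : ℚ)).Point →+ (crv (ZMod p) (a : ZMod p) (b : ZMod p)).Point)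
    (hred : ∀ (x y : ℚ) (h : (crv ℚ (a : ℚ) (b : ℚ)).Nonsingular x y),
      ((x.den : ZMod p) = 0 → red (.some x y h) = 0) ∧
      ((x.den : ZMod p) ≠ 0 → (y.den : ZMod p) ≠ 0 ∧ ∃ h', red (.some x y h) =
        .some (x : ZMod p) (y : ZMod p) h'))
    (P : (crv ℚ (a : ℚ) (b : ℚ)).Point) (X Y Z : ℤ) (h : Rep P X Y Z) :
    ((Z : ZMod p) = 0 → red P = 0) ∧
    ((Z : ZMod p) ≠ 0 → ∃ (x y : ZMod p) (h' : _), red P = .some x y h' ∧
      x * (Z : ZMod p) ^ 2 = X ∧ y * (Z : ZMod p) ^ 3 = Y) := by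
  obtain ⟨hc1, hc2, ⟨rfl, rfl, rfl, rfl⟩ | ⟨hZ, hns, rfl⟩⟩ := h
  · refine ⟨fun _ => map_zero red, fun h => ?_⟩
    simp at h
  · have hZ' : (Z : ℚ) ≠ 0 := by exact_mod_cast hZ
    set x : ℚ := (X : ℚ) / (Z : ℚ) ^ 2 with hx
    set y : ℚ := (Y : ℚ) / (Z : ℚ) ^ 3 with hy
    have hxden : (x.den : ℤ) = Z ^ 2 := by
      have h1 := Rat.den_div_eq_of_coprime (a := X) (b := Z ^ 2) (by positivity)
        (Int.isCoprime_iff_nat_coprime.mp (IsCoprime.pow_right hc1))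
      rw [← h1, hx]
      push_cast
      rfl
    have hxd : (x.den : ZMod p) = (Z : ZMod p) ^ 2 := by
      have := congrArg (fun t : ℤ => (t : ZMod p)) hxden
      push_cast at this
      exact this
    have hxn : (x.num : ZMod p) * (Z : ZMod p) ^ 2 = X * (x.den : ZMod p) := by
      have h1 : (x.num : ℚ) * (Z : ℚ) ^ 2 = X * x.den := by
        have h2 : (x.num : ℚ) = x * x.den := (Rat.mul_den_eq_num x).symm
        rw [h2, hx]
        field_simp
      have h3 : x.num * Z ^ 2 = X * x.den := by exact_mod_cast h1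
      have := congrArg (fun t : ℤ => (t : ZMod p)) h3
      push_cast at this
      exact this
    have hyn : (y.num : ZMod p) * (Z : ZMod p) ^ 3 = Y * (y.den : ZMod p) := by
      have h1 : (y.num : ℚ) * (Z : ℚ) ^ 3 = Y * y.den := by
        have h2 : (y.num : ℚ) = y * y.den := (Rat.mul_den_eq_num y).symm
        rw [h2, hy]
        field_simp
      have h3 : y.num * Z ^ 3 = Y * y.den := by exact_mod_cast h1
      have := congrArg (fun t : ℤ => (t : ZMod p)) h3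
      push_cast at this
      exact this
    obtain ⟨r1, r2⟩ := hred x y hns
    refine ⟨fun hz => r1 (by rw [hxd, hz]; simp), fun hz => ?_⟩
    have hxd0 : (x.den : ZMod p) ≠ 0 := by rw [hxd]; exact pow_ne_zero 2 hz
    obtain ⟨hyd0, h', hr⟩ := r2 hxd0
    refine ⟨_, _, h', hr, ?_, ?_⟩
    · rw [Rat.cast_def, div_mul_eq_mul_div, hxn, mul_div_assoc, div_self hxd0, mul_one]
    · rw [Rat.cast_def, div_mul_eq_mul_div, hyn, mul_div_assoc, div_self hyd0, mul_one]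

/-- scaling of the monomials -/
theorem mono_scale {R : Type} [CommRing R] {m : ℕ} (s : Mon m) (X' Y' Z' w : R) :
    mono s (w ^ 2 * X') (w ^ 3 * Y') (w * Z') = (w ^ m) ^ 2 * mono s X' Y' Z' := by
  obtain ⟨⟨i, j⟩, hs⟩ := s
  have h1 : 2 * i + 3 * j ≤ 2 * m := (Finset.mem_filter.mp hs).2
  obtain ⟨k, hk⟩ : ∃ k, 2 * m = 2 * i + 3 * j + k := ⟨2 * m - (2 * i + 3 * j), by omega⟩
  unfold mono
  simp only
  have h2 : 2 * m - 2 * i - 3 * j = k := by omega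
  rw [h2, ← pow_mul, mul_comm m 2, hk, mul_pow, mul_pow, mul_pow]
  ring

theorem mono_cast (p : ℕ) {m : ℕ} (s : Mon m) (X Y Z : ℤ) :
    ((mono s X Y Z : ℤ) : ZMod p) = mono s (X : ZMod p) (Y : ZMod p) (Z : ZMod p) := by
  unfold mono
  push_cast
  rfl

theorem concl (p : ℕ) [Fact p.Prime] (X Y Z X' Y' Z' : ℤ) (w : ZMod p) (hw : w ≠ 0)
    (hX : (X : ZMod p) = w ^ 2 * X') (hY : (Y : ZMod p) = w ^ 3 * Y')
    (hZ : (Z : ZMod p) = w * Z') (m : ℕ) :
    ∃ u : ℤ, ¬ (p : ℤ) ∣ u ∧ ∀ s : Mon m, (p : ℤ) ∣ mono s X Y Z - u ^ 2 * mono s X' Y' Z' := by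
  obtain ⟨u, hu⟩ := ZMod.intCast_surjective (w ^ m)
  refine ⟨u, ?_, fun s => ?_⟩
  · rw [dvd_iff, hu]
    exact pow_ne_zero m hw
  · rw [dvd_iff]
    push_cast
    rw [mono_cast, mono_cast, hX, hY, hZ, mono_scale, hu, sub_self]

/-- at the zero point: `X = t²`, `Y = t³` -/
theorem at_zero (p : ℕ) [Fact p.Prime] {a b : ℤ} {P : (crv ℚ (a : ℚ) (b : ℚ)).Point} {X Y Z : ℤ}
    (h : Rep P X Y Z) (hz : (Z : ZMod p) = 0) :
    ∃ t : ZMod p, t ≠ 0 ∧ (X : ZMod p) = t ^ 2 ∧ (Y : ZMod p) = t ^ 3 := by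
  have h1 := rep_eq h
  have h2 : (Y : ZMod p) ^ 2 = (X : ZMod p) ^ 3 := by
    have := congrArg (fun t : ℤ => (t : ZMod p)) h1
    push_cast at this
    rw [this, hz]
    ring
  have hX : (X : ZMod p) ≠ 0 := by
    intro hX
    obtain ⟨u, v, huv⟩ := h.1
    have := congrArg (fun t : ℤ => (t : ZMod p)) huv
    push_cast at this
    rw [hX, hz] at this
    simp at this
  have hY : (Y : ZMod p) ≠ 0 := by
    intro hY
    rw [hY] at h2
    have : (X : ZMod p) ^ 3 = 0 := by rw [← h2]; ring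
    exact hX (pow_eq_zero_iff (by norm_num) |>.mp this)
  refine ⟨Y / X, div_ne_zero hY hX, ?_, ?_⟩
  · rw [div_pow, h2, eq_div_iff (pow_ne_zero 2 hX)]
    ring
  · rw [div_pow, eq_div_iff (pow_ne_zero 3 hX), ← h2]
    ring

theorem repm : REPM := by
  intro p _ a b _ red hred P P' X Y Z X' Y' Z' h h' hPP m
  obtain ⟨r1, r2⟩ := rep_red p a b red hred P X Y Z h
  obtain ⟨r1', r2'⟩ := rep_red p a b red hred P' X' Y' Z' h'
  by_cases hz : (Z : ZMod p) = 0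
  · have hz' : (Z' : ZMod p) = 0 := by
      by_contra hne
      obtain ⟨x, y, hns, he, -, -⟩ := r2' hne
      have h1 := r1 hz
      rw [hPP, he] at h1
      exact absurd h1 (by simp)
    obtain ⟨t, ht, hX, hY⟩ := at_zero p h hz
    obtain ⟨t', ht', hX', hY'⟩ := at_zero p h' hz'
    refine concl p X Y Z X' Y' Z' (t / t') (div_ne_zero ht ht') ?_ ?_ ?_ m
    · rw [hX, hX', div_pow, div_mul_cancel₀ _ (pow_ne_zero 2 ht')]
    · rw [hY, hY', div_pow, div_mul_cancel₀ _ (pow_ne_zero 3 ht')]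
    · rw [hz, hz', mul_zero]
  · have hz' : (Z' : ZMod p) ≠ 0 := by
      intro h0
      obtain ⟨x, y, hns, he, -, -⟩ := r2 hz
      have h1 := r1' h0
      rw [← hPP, he] at h1
      exact absurd h1 (by simp)
    obtain ⟨x, y, hns, he, hx, hy⟩ := r2 hz
    obtain ⟨x', y', hns', he', hx', hy'⟩ := r2' hz'
    rw [he, he'] at hPP
    have hxy : x = x' ∧ y = y' := by
      simpa using hPP
    obtain ⟨rfl, rfl⟩ := hxy
    refine concl p X Y Z X' Y' Z' (Z / Z') (div_ne_zero hz hz') ?_ ?_ ?_ m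
    · rw [← hx, ← hx', div_pow]
      field_simp
    · rw [← hy, ← hy', div_pow]
      field_simp
    · rw [div_mul_cancel₀ _ hz']

end Pool.Agent.H940D
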